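import Pool.Agent.Helper18.SU.Goals

/-! Packet PMQ: the reservation lemma on a whole vertex set. -/

set_option autoImplicit false

namespace Pool.Agent.Helper33.SU

open Pool.Agent.Helper18.SU Finset

theorem sumW {V : Type} [Fintype V] [DecidableEq V] (w : V → Fin 3 → ℝ)
    (h1 : ∀ x, ∑ l, w x l = 1) : ∑ o : V → Fin 3, ∏ x, w x (o x) = 1 := by
  have h := Finset.prod_univ_sum (fun _ : V => (Finset.univ : Finset (Fin 3))) w
  rw [Fintype.piFinset_univ] at h
  rw [← h]
  exact Finset.prod_eq_one (fun x _ => h1 x)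

theorem marg {V : Type} [Fintype V] [DecidableEq V] (w : V → Fin 3 → ℝ)
    (h1 : ∀ x, ∑ l, w x l = 1) (x : V) (l : Fin 3) :
    ∑ o : V → Fin 3, (if o x = l then ∏ y, w y (o y) else 0) = w x l := by
  have e : ∀ o : V → Fin 3, (if o x = l then ∏ y, w y (o y) else 0) =
      ∏ y, (if y = x then (if o y = l then w y (o y) else 0) else w y (o y)) := by
    intro o
    by_cases ho : o x = l
    · rw [if_pos ho]
      refine Finset.prod_congr rfl (fun y _ => ?_)
      by_cases hy : y = x
      · subst hy
        simp [ho]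
      · simp [hy]
    · rw [if_neg ho]
      symm
      exact Finset.prod_eq_zero (Finset.mem_univ x) (by simp [ho])
  rw [Finset.sum_congr rfl (fun o _ => e o)]
  have h := Finset.prod_univ_sum (fun _ : V => (Finset.univ : Finset (Fin 3)))
    (fun y k => if y = x then (if k = l then w y k else 0) else w y k)
  rw [Fintype.piFinset_univ] at h
  rw [← h]
  have h2 : ∀ y ∈ (Finset.univ : Finset V),
      ∑ k ∈ (Finset.univ : Finset (Fin 3)),
        (if y = x then (if k = l then w y k else 0) else w y k) = if y = x then w x l else 1 := by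
    intro y _
    by_cases hy : y = x
    · subst hy
      simp
    · simp [hy, h1]
  rw [Finset.prod_congr rfl h2]
  simp

/-- the threshold -/
noncomputable def thr (L : ℝ) (p : ℕ) : ℝ :=
  if p = 0 then 0 else p + 2 * Real.sqrt (L * p) + 4 * L + 1 / 2

theorem thr_nonneg {L : ℝ} (hL : 0 ≤ L) (p : ℕ) : 0 ≤ thr L p := by
  unfold thr
  split_ifs
  · exact le_rfl
  · have : (0 : ℝ) ≤ p := Nat.cast_nonneg p
    have := Real.sqrt_nonneg (L * p)
    positivity

theorem two_thr (L : ℝ) (p : ℕ) : 2 * thr L p = 2 * p + err L p := by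
  unfold thr err
  split_ifs with h
  · subst h; simp
  · ring

open Classical in
theorem tail_one (h3 : TAIL_stmt) {V : Type} [Fintype V] [DecidableEq V] (w : V → Fin 3 → ℝ)
    (h0 : ∀ x l, 0 ≤ w x l) (h1 : ∀ x, ∑ l, w x l = 1) (x : V) (R : V → Prop) (l : Fin 3)
    (p : ℕ) (L : ℝ) (hL : 0 ≤ L) (hl : w x l ≤ 1)
    (hw : 0 < w x 2 → thr L p ≤ (∑ y, if R y then w y l else 0) + w x l / 2) :
    ∑ o : V → Fin 3, (if o x = 2 ∧ ((univ.filter (fun y => o y = l)).filter R).card < p
      then ∏ y, w y (o y) else 0) ≤ Real.exp (-L) := by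
  have hpos : ∀ o : V → Fin 3, 0 ≤ ∏ y, w y (o y) := fun o => Finset.prod_nonneg (fun y _ => h0 _ _)
  by_cases hp : p = 0
  · subst hp
    simp [Real.exp_nonneg]
  rcases (h0 x 2).lt_or_eq with hm | hm
  · have hT := h3 V w h0 h1 (univ.filter R) l p L hL (by
      have h := hw hm
      unfold thr at h
      rw [if_neg hp] at h
      rw [Finset.sum_filter]
      linarith)
    refine le_trans (Finset.sum_le_sum (fun o _ => ?_)) hT
    have hc : (univ.filter (fun y => o y = l)).filter R = (univ.filter R).filter (fun y => o y = l) := by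
      ext y
      simp only [Finset.mem_filter, Finset.mem_univ, true_and]
      exact and_comm
    rw [hc]
    by_cases hc1 : ((univ.filter R).filter (fun y => o y = l)).card < p
    · rw [if_pos hc1]
      split_ifs
      · exact le_rfl
      · exact hpos o
    · rw [if_neg hc1, if_neg (fun hh => hc1 hh.2)]
  · refine le_trans (le_of_eq ?_) (Real.exp_nonneg _)
    refine Finset.sum_eq_zero (fun o _ => ?_)
    split_ifs with hh
    · exact Finset.prod_eq_zero (Finset.mem_univ x) (by rw [hh.1]; exact hm.symm)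
    · rfl

theorem PMQ (h1 : EQ_stmt) (h2 : MASS_stmt) (h3 : TAIL_stmt) : PMQ_stmt := by
  classical
  intro V _ _ A hA p q L hL hV
  obtain ⟨P0, Q0, hP0, hQ0, hPQ, hP1, hQ1, hm⟩ :=
    h1 V A hA (thr L p) (thr L q) (thr_nonneg hL p) (thr_nonneg hL q)
  have mP := h2 V A hA true (thr L p) (thr_nonneg hL p) P0 hP0 hP1
  have mQ := h2 V A hA false (thr L q) (thr_nonneg hL q) Q0 hQ0 hQ1
  rw [two_thr] at mP mQ
  set w : V → Fin 3 → ℝ := fun x => ![P0 x, Q0 x, 1 - P0 x - Q0 x] with hw
  have w0 : ∀ x, w x 0 = P0 x := fun x => rfl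
  have w1 : ∀ x, w x 1 = Q0 x := fun x => rfl
  have w2 : ∀ x, w x 2 = 1 - P0 x - Q0 x := fun x => rfl
  have hw0 : ∀ x l, 0 ≤ w x l := by
    intro x l
    fin_cases l
    · exact hP0 x
    · exact hQ0 x
    · have := hPQ x
      change 0 ≤ w x 2
      rw [w2]
      linarith
  have hw1 : ∀ x, ∑ l, w x l = 1 := by
    intro x
    rw [Fin.sum_univ_three, w0, w1, w2]
    ring
  have hpos : ∀ o : V → Fin 3, 0 ≤ ∏ y, w y (o y) := fun o => Finset.prod_nonneg (fun y _ => hw0 _ _)
  set c : ℝ := (Fintype.card V : ℝ) - (2 * p + 2 * q + err L p + err L q + 1) with hc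
  -- the good set
  let M : (V → Fin 3) → Finset V := fun o => univ.filter (fun x => o x = 2 ∧
    p ≤ ((univ.filter (fun y => o y = 0)).filter (fun y => A x y)).card ∧
    q ≤ ((univ.filter (fun y => o y = 1)).filter (fun y => A y x)).card)
  have hex : ∃ o : V → Fin 3, c ≤ (M o).card := by
    by_contra hcon
    push Not at hcon
    have hlt : ∑ o : V → Fin 3, (∏ y, w y (o y)) * ((M o).card : ℝ) < c := by
      have hs := sumW w hw1
      have hne : ∃ o : V → Fin 3, 0 < ∏ y, w y (o y) := by
        by_contra hno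
        push Not at hno
        have : ∑ o : V → Fin 3, ∏ y, w y (o y) ≤ 0 := Finset.sum_nonpos (fun o _ => hno o)
        linarith
      obtain ⟨o1, ho1⟩ := hne
      have hs2 : ∑ o : V → Fin 3, (∏ y, w y (o y)) * ((M o).card : ℝ) <
          ∑ o : V → Fin 3, (∏ y, w y (o y)) * c := by
        refine Finset.sum_lt_sum (fun o _ => mul_le_mul_of_nonneg_left (hcon o).le (hpos o))
          ⟨o1, Finset.mem_univ _, mul_lt_mul_of_pos_left (hcon o1) ho1⟩
      rw [← Finset.sum_mul, hs, one_mul] at hs2
      exact hs2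
    -- lower bound for the mean
    have hge : ∑ x, (w x 2 - Real.exp (-L) - Real.exp (-L)) ≤
        ∑ o : V → Fin 3, (∏ y, w y (o y)) * ((M o).card : ℝ) := by
      have e1 : ∀ o : V → Fin 3, (∏ y, w y (o y)) * ((M o).card : ℝ) =
          ∑ x, (if o x = 2 ∧
            p ≤ ((univ.filter (fun y => o y = 0)).filter (fun y => A x y)).card ∧
            q ≤ ((univ.filter (fun y => o y = 1)).filter (fun y => A y x)).card
            then ∏ y, w y (o y) else 0) := by
        intro o
        rw [Finset.sum_ite, Finset.sum_const_zero, add_zero, Finset.sum_const, nsmul_eq_mul,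
          mul_comm]
      rw [Finset.sum_congr rfl (fun o _ => e1 o), Finset.sum_comm]
      refine Finset.sum_le_sum (fun x _ => ?_)
      have t1 := tail_one h3 w hw0 hw1 x (fun y => A x y) 0 p L hL (by
          rw [w0]; linarith [hPQ x, hQ0 x]) (by
          intro hpos2
          rw [w2] at hpos2
          refine le_trans (hm x (by linarith)).1 (le_of_eq ?_)
          unfold wt
          congr 1)
      have t2 := tail_one h3 w hw0 hw1 x (fun y => A y x) 1 q L hL (by
          rw [w1]; linarith [hPQ x, hP0 x]) (by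
          intro hpos2
          rw [w2] at hpos2
          refine le_trans (hm x (by linarith)).2 (le_of_eq ?_)
          unfold wt
          congr 1)
      have t0 := marg w hw1 x 2
      rw [← t0]
      refine le_trans (sub_le_sub (sub_le_sub le_rfl t1) t2) ?_
      rw [← Finset.sum_sub_distrib, ← Finset.sum_sub_distrib]
      refine Finset.sum_le_sum (fun o _ => ?_)
      have hp := hpos o
      by_cases a0 : o x = 2
      · by_cases a1 : ((univ.filter (fun y => o y = 0)).filter (fun y => A x y)).card < p
        · by_cases a2 : ((univ.filter (fun y => o y = 1)).filter (fun y => A y x)).card < q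
          · rw [if_pos a0, if_pos ⟨a0, a1⟩, if_pos ⟨a0, a2⟩, if_neg (fun h => absurd a1 (not_lt.mpr h.2.1))]
            linarith
          · rw [if_pos a0, if_pos ⟨a0, a1⟩, if_neg (fun h => a2 h.2), if_neg (fun h => absurd a1 (not_lt.mpr h.2.1))]
            linarith
        · by_cases a2 : ((univ.filter (fun y => o y = 1)).filter (fun y => A y x)).card < q
          · rw [if_pos a0, if_neg (fun h => a1 h.2), if_pos ⟨a0, a2⟩, if_neg (fun h => absurd a2 (not_lt.mpr h.2.2))]
            linarith
          · rw [if_pos a0, if_neg (fun h => a1 h.2), if_neg (fun h => a2 h.2), if_pos ⟨a0, not_lt.mp a1, not_lt.mp a2⟩]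
            linarith
      · rw [if_neg a0, if_neg (fun h => a0 h.1), if_neg (fun h => a0 h.1), if_neg (fun h => a0 h.1)]
        linarith
    have hsum : ∑ x, (w x 2 - Real.exp (-L) - Real.exp (-L)) =
        (Fintype.card V : ℝ) - ∑ x, P0 x - ∑ x, Q0 x - 2 * (Fintype.card V : ℝ) * Real.exp (-L) := by
      simp only [w2, Finset.sum_sub_distrib, Finset.sum_const, Finset.card_univ, nsmul_eq_mul,
        mul_one]
      ring
    have hexp : 2 * (Fintype.card V : ℝ) * Real.exp (-L) ≤ 1 := by
      have := mul_le_mul_of_nonneg_right hV (Real.exp_nonneg (-L))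
      rw [← Real.exp_add, add_neg_cancel, Real.exp_zero] at this
      exact this
    rw [hsum] at hge
    have : c ≤ (Fintype.card V : ℝ) - ∑ x, P0 x - ∑ x, Q0 x -
        2 * (Fintype.card V : ℝ) * Real.exp (-L) := by
      rw [hc]
      linarith
    linarith
  obtain ⟨o, ho⟩ := hex
  refine ⟨univ.filter (fun y => o y = 0), univ.filter (fun y => o y = 1), M o, ?_, ?_, ?_, ?_, ?_⟩
  · rw [Finset.disjoint_left]
    intro y hy hy2
    simp only [Finset.mem_filter, Finset.mem_univ, true_and] at hy hy2
    rw [hy] at hy2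
    exact absurd hy2 (by decide)
  · rw [Finset.disjoint_left]
    intro y hy hy2
    simp only [M, Finset.mem_filter, Finset.mem_univ, true_and] at hy hy2
    rw [hy] at hy2
    exact absurd hy2.1 (by decide)
  · rw [Finset.disjoint_left]
    intro y hy hy2
    simp only [M, Finset.mem_filter, Finset.mem_univ, true_and] at hy hy2
    rw [hy] at hy2
    exact absurd hy2.1 (by decide)
  · intro x hx
    simp only [M, Finset.mem_filter, Finset.mem_univ, true_and] at hx
    obtain ⟨_, b1, b2⟩ := hx
    refine ⟨le_trans b1 (le_of_eq ?_), le_trans b2 (le_of_eq ?_)⟩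
    · congr 1
    · congr 1
  · rw [hc] at ho
    linarith

end Pool.Agent.Helper33.SU
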